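import Mathlib
import Pool.Agent.V1130.TwoColMain

/-!
Problem MP_945175_al, Q1: every finite solvable permutation group admits a 2-colouring of its
domain such that the colour-preserving subgroup is abelian-by-2-group.
-/

namespace Pool.Agent.Results.MP_945175_al.TwoColouring

/-- The colour-preserving subgroup `G_γ` of a permutation group `G`. -/
def colourPreserving {Ω : Type} (G : Subgroup (Equiv.Perm Ω)) (γ : Ω → Fin 2) :
    Subgroup (Equiv.Perm Ω) where
  carrier := {g | g ∈ G ∧ ∀ ω, γ (g ω) = γ ω}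
  one_mem' := ⟨one_mem G, fun _ => rfl⟩
  mul_mem' := by
    rintro g h ⟨hg, hg'⟩ ⟨hh, hh'⟩
    exact ⟨mul_mem hg hh, fun ω => (hg' (h ω)).trans (hh' ω)⟩
  inv_mem' := by
    rintro g ⟨hg, hg'⟩
    refine ⟨inv_mem hg, fun ω => ?_⟩
    have h1 := hg' (g⁻¹ ω)
    have h2 : g (g⁻¹ ω) = ω := g.apply_symm_apply ω
    rw [h2] at h1
    exact h1.symm

/-- `H` is abelian-by-2-group: it has an abelian normal subgroup whose quotient is a 2-group. -/
def AbelianByTwo (H : Type) [Group H] : Prop :=
  ∃ (N : Subgroup H) (_ : N.Normal), (∀ x ∈ N, ∀ y ∈ N, x * y = y * x) ∧ IsPGroup 2 (H ⧸ N)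

theorem result (Ω : Type) [Finite Ω] (G : Subgroup (Equiv.Perm Ω)) (hG : Group.IsSolvable G) :
    ∃ γ : Ω → Fin 2, AbelianByTwo (colourPreserving G γ) := by
  classical
  obtain ⟨S, hS⟩ := V1130.TwoCol.exists_good G Ω
  let γ : Ω → Fin 2 := fun ω => if ω ∈ S then 0 else 1
  have hγ : ∀ a b : Ω, γ a = γ b → (a ∈ S ↔ b ∈ S) := by
    intro a b hab
    by_cases ha : a ∈ S <;> by_cases hb : b ∈ S <;> simp_all [γ]
  refine ⟨γ, ?_⟩
  set P := colourPreserving G γ with hP
  have hfin : Finite P := inferInstance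
  let T : Set P := {x | Odd (orderOf x)}
  have hT : ∀ x ∈ T, ∀ y ∈ T, x * y = y * x := by
    have hodd : ∀ x ∈ T, V1130.TwoCol.OddMap (fun ω : Ω => (⟨x.1, x.2.1⟩ : G) • ω) := by
      intro x hx
      refine ⟨orderOf x, hx, fun ω => ?_⟩
      rw [smul_iterate]
      have h1 : (x.1 : Equiv.Perm Ω) ^ orderOf x = 1 := congrArg Subtype.val (pow_orderOf_eq_one x)
      have h2 : ((⟨x.1, x.2.1⟩ : G) ^ orderOf x) = 1 := Subtype.ext h1
      change ((⟨x.1, x.2.1⟩ : G) ^ orderOf x) • ω = ω
      rw [h2, one_smul]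
    intro x hx y hy
    apply Subtype.ext
    apply Equiv.ext
    intro ω
    exact hS ⟨x.1, x.2.1⟩ ⟨y.1, y.2.1⟩ (hodd x hx) (hodd y hy)
      (fun ω => hγ _ _ (x.2.2 ω)) (fun ω => hγ _ _ (y.2.2 ω)) ω
  have hN : (Subgroup.closure T).Normal := by
    have h1 : Subgroup.closure T = Subgroup.normalClosure T := by
      apply le_antisymm
      · exact Subgroup.closure_le_normalClosure
      · rw [Subgroup.normalClosure]
        apply Subgroup.closure_mono
        intro x hx
        rw [Group.mem_conjugatesOfSet_iff] at hx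
        obtain ⟨a, ha, hax⟩ := hx
        rw [isConj_iff] at hax
        obtain ⟨c, rfl⟩ := hax
        change Odd (orderOf (c * a * c⁻¹))
        have : orderOf (c * a * c⁻¹) = orderOf a := by
          have := MulEquiv.orderOf_eq (MulAut.conj c) a
          simpa using this
        rw [this]
        exact ha
    rw [h1]
    infer_instance
  refine ⟨Subgroup.closure T, hN, ?_, ?_⟩
  · intro x hx y hy
    have h1 : Subgroup.closure T ≤ Subgroup.centralizer T := by
      rw [Subgroup.closure_le]
      intro a ha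
      rw [SetLike.mem_coe, Subgroup.mem_centralizer_iff]
      intro b hb
      exact hT b hb a ha
    have h2 : Subgroup.closure T ≤ Subgroup.centralizer {y} := by
      rw [Subgroup.closure_le]
      intro a ha
      rw [SetLike.mem_coe, Subgroup.mem_centralizer_iff]
      rintro b hb
      rw [Set.mem_singleton_iff] at hb
      subst hb
      exact ((Subgroup.mem_centralizer_iff.1 (h1 hy)) a ha).symm
    exact ((Subgroup.mem_centralizer_iff.1 (h2 hx)) y rfl).symm
  · intro g
    obtain ⟨g, rfl⟩ := QuotientGroup.mk_surjective g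
    obtain ⟨k, m, hm, hkm⟩ := Nat.exists_eq_two_pow_mul_odd (orderOf_pos g).ne'
    refine ⟨k, ?_⟩
    rw [← QuotientGroup.mk_pow, QuotientGroup.eq_one_iff]
    apply Subgroup.subset_closure
    change Odd (orderOf (g ^ 2 ^ k))
    rw [orderOf_pow_of_dvd (by positivity) ⟨m, hkm⟩, hkm, Nat.mul_div_cancel_left _ (by positivity)]
    exact hm

end Pool.Agent.Results.MP_945175_al.TwoColouring
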